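import Pool.Agent.Helper15.GS.GoalsE
import Pool.Agent.Helper40.HS.C2A

/-! Packet GS GB3. -/

open Complex Metric Set Filter Topology MeasureTheory
open scoped ContDiff ComplexConjugate ComplexOrder Manifold Matrix

namespace Pool.Agent.Helper88.GS

open Pool.Agent.Helper95.Lin Pool.Agent.Helper16.Abund Pool.Agent.Helper92.Orb
  Pool.Agent.Helper10.SP Pool.Agent.Helper95.RK Pool.Agent.Helper57.HS
  Pool.Agent.Helper15.HS Pool.Agent.Helper15.GS

universe u

variable {n : ℕ}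

theorem smul_psd {A : Matrix (Fin n) (Fin n) ℂ} (hA : A.PosSemidef) {c : ℝ} (hc : 0 ≤ c) :
    ((c : ℂ) • A).PosSemidef := by
  apply hA.smul
  exact_mod_cast hc

theorem smul_pd {A : Matrix (Fin n) (Fin n) ℂ} (hA : A.PosDef) {c : ℝ} (hc : 0 < c) :
    ((c : ℂ) • A).PosDef := by
  apply hA.smul
  exact_mod_cast hc

/-- `h ≤ tr (h Q⁻¹) Q`. -/
theorem le_tr_smul {h Q : Matrix (Fin n) (Fin n) ℂ} (hh : h.PosSemidef) (hQ : Q.PosDef) {M : ℝ}
    (hM : (Matrix.trace (h * Q⁻¹)).re ≤ M) : ((M : ℂ) • Q - h).PosSemidef := by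
  obtain ⟨B, hB⟩ := Pool.Agent.Helper89.Lin.exists_root hQ.inv.posSemidef
  have hdet : Q.det ≠ 0 := hQ.det_pos.ne'
  have hQu : IsUnit Q.det := isUnit_iff_ne_zero.2 hdet
  have hBdet : IsUnit B.det := by
    have h1 : (Q⁻¹).det ≠ 0 := hQ.inv.det_pos.ne'
    rw [hB, Matrix.det_mul] at h1
    exact isUnit_iff_ne_zero.2 (right_ne_zero_of_mul h1)
  have hL : (B * h * Bᴴ).PosSemidef := hh.mul_mul_conjTranspose_same B
  have htr : (Matrix.trace (B * h * Bᴴ)) = Matrix.trace (h * Q⁻¹) := by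
    rw [hB, ← Matrix.mul_assoc, Matrix.trace_mul_comm (h * Bᴴ) B, Matrix.mul_assoc]
  have h2 := Pool.Agent.Helper40.HS.le_trace hL (M := M) (by rw [htr]; exact hM)
  have h3 := h2.mul_mul_conjTranspose_same B⁻¹
  have e1 : B⁻¹ * ((M : ℂ) • (1 : Matrix (Fin n) (Fin n) ℂ) - B * h * Bᴴ) * (B⁻¹)ᴴ =
      (M : ℂ) • Q - h := by
    have hBH : IsUnit (Bᴴ).det := by
      rw [Matrix.det_conjTranspose]
      exact hBdet.star
    have e2 : B⁻¹ * (B⁻¹)ᴴ = Q := by
      have : (Bᴴ * B)⁻¹ = Q := by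
        rw [← hB]
        exact Matrix.nonsing_inv_nonsing_inv Q hQu
      rw [← this, Matrix.mul_inv_rev, Matrix.conjTranspose_nonsing_inv]
    rw [Matrix.mul_sub, Matrix.sub_mul, Matrix.mul_smul, Matrix.mul_one, Matrix.smul_mul, e2]
    congr 1
    rw [Matrix.conjTranspose_nonsing_inv, Matrix.mul_assoc B h, ← Matrix.mul_assoc B⁻¹ B,
      Matrix.nonsing_inv_mul B hBdet, Matrix.one_mul, Matrix.mul_assoc,
      Matrix.mul_nonsing_inv _ hBH, Matrix.mul_one]
  rw [e1] at h3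
  exact h3

theorem hermi_add {k : ℕ} (A B : Matrix (Fin k) (Fin k) ℂ) (a b : Fin k → ℂ) :
    hermi (A + B) a b = hermi A a b + hermi B a b := by
  unfold hermi
  rw [← Finset.sum_add_distrib]
  refine Finset.sum_congr rfl fun i _ => ?_
  rw [← Finset.sum_add_distrib]
  refine Finset.sum_congr rfl fun j _ => ?_
  rw [Matrix.add_apply]
  ring

theorem gb3 (hSBG : Pool.Agent.Helper95.HS.S_SBG.{u}) (hDENS : Pool.Agent.Helper95.HS.S_DENS.{u})
    (hPUE : S_PUE.{u}) (hNULL0 : Pool.Agent.Helper95.HS.S_NULL0.{u})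
    (hCMPG : S_CMPG.{u}) (hGRBC : S_GRBC) (hGPF : S_GPF.{u}) (hGB1 : S_GB1.{u})
    (hGLG : S_GLG.{u}) (hGAV : S_GAV.{u}) (hRHB : S_RHB.{u}) (hRHOI : S_RHOI.{u}) :
    S_GB3.{u} := by
  intro n hn T G _ R H h D k P hP
  have hE := D.ket.et
  obtain ⟨κ, hκ⟩ := hPUE T R hE
  obtain ⟨c, C, hc, hC, hcmp⟩ := hCMPG T R H h D.ket D.her
  have hHer : HerT T R H := ⟨D.ket.posDef, D.ket.smooth, D.ket.inv⟩
  have hrbc : RBC h T := (hGRBC T hE.isOpen h D.her.posDef D.her.smooth D.gsn).1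
  have hgpf := hGPF T R H h D k P hP
  obtain ⟨hrho1, hrho2, -, -, hrho5⟩ := hRHOI T R H hE hHer
  set β : Cn n → Matrix (Fin n) (Fin n) ℂ := fun x => P x * h x with hβ
  have hβpsd : ∀ x ∈ T, (β x).PosSemidef := fun x hx => (hgpf x hx).2.1
  have hβh : ∀ x ∈ T, (β x).IsHermitian := fun x hx => (hβpsd x hx).isHermitian
  -- the bound of the fixed forms
  obtain ⟨K0, hK0, hK0b⟩ := hRHB T R H hE hHer (fun x => rho H x + β x)
    (fun x hx => (hrho1.herm x hx).add (hβh x hx))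
    (fun i j => ((hrho1.smooth i j).continuousOn).add ((hP.chf.smooth i j).continuousOn))
    (by
      intro U τ hτ x hx a b
      rw [hermi_add, hermi_add, hrho2 U τ hτ x hx a b, hP.inv U τ hτ x hx a b])
  set a : ℝ := K0 + 1 with ha
  obtain ⟨K, hK, hDb⟩ := hDENS T R H D.ket κ hκ a
  obtain ⟨C', hSb⟩ := hSBG hn T R H D.ket κ hκ a K
  obtain ⟨C2, hC2, hAv⟩ := hGAV T R H h D k P hP κ hκ
  set B : ℝ := |C'| * C2 + 1 with hB
  have hBpos : 0 < B := by positivity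
  -- uniform bound
  have key : ∀ (δ : ℝ) (Q : Cn n → Matrix (Fin n) (Fin n) ℂ), 0 < δ → δ ≤ 1 →
      BKE T R H β δ Q → ∀ x ∈ T, (Matrix.trace (h x * (Q x)⁻¹)).re ≤ B := by
    intro δ Q hδ hδ1 hQ x hx
    have hQk := hQ.1
    have hQher : HerT T R Q := ⟨hQk.posDef, hQk.smooth, hQk.inv⟩
    obtain ⟨hφi, hφ⟩ := hrho5 Q hQher
    have hLM : ∀ y ∈ T, LM (fun y => ld Q y - ld H y) y = Q y - β y - (δ : ℂ) • H y - rho H y := by
      intro y hy
      have h1 := hφ y hy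
      have h2 := hQ.2 y hy
      rw [h2] at h1
      rw [h1]
      abel
    have hHd : ∀ y ∈ T, (((1 - δ : ℝ) : ℂ) • H y).PosSemidef := fun y hy =>
      smul_psd (D.ket.posDef y hy).posSemidef (by linarith)
    have p1 : ∀ y ∈ T, ((a : ℂ) • H y - (Q y - LM (fun y => ld Q y - ld H y) y)).PosSemidef := by
      intro y hy
      have e : (a : ℂ) • H y - (Q y - LM (fun y => ld Q y - ld H y) y) =
          ((K0 : ℂ) • H y - (rho H y + β y)) + ((1 - δ : ℝ) : ℂ) • H y := by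
        rw [hLM y hy, ha]
        push_cast
        rw [add_smul, sub_smul]
        abel
      rw [e]
      exact (hK0b y hy).2.add (hHd y hy)
    have p2 : ∀ y ∈ T, ((a : ℂ) • H y + LM (fun y => ld Q y - ld H y) y).PosSemidef := by
      intro y hy
      have e : (a : ℂ) • H y + LM (fun y => ld Q y - ld H y) y =
          ((K0 : ℂ) • H y - (rho H y + β y)) + ((1 - δ : ℝ) : ℂ) • H y + Q y := by
        rw [hLM y hy, ha]
        push_cast
        rw [add_smul, sub_smul]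
        abel
      rw [e]
      exact ((hK0b y hy).2.add (hHd y hy)).add (hQk.posDef y hy).posSemidef
    have hdens := hDb Q hQk p2
    obtain ⟨g1, g2⟩ := hGLG hn T R h Q (fun y => β y + (δ : ℂ) • H y) D.her hrbc hQk
      (fun y hy => (hβpsd y hy).add (smul_psd (D.ket.posDef y hy).posSemidef hδ.le))
      (fun y hy => by rw [hQ.2 y hy, sub_sub])
    have s1 := hSb Q (fun y => ld Q y - ld H y) (fun y => (Matrix.trace (h y * (Q y)⁻¹)).re)
      hQk hφi p1 hdens g1 (fun y hy => (g2 y hy).1) (fun y hy => (g2 y hy).2) x hx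
    have s2 := hAv δ Q hδ hδ1 hQ
    have hV : 0 < Pool.Agent.Helper95.HS.vol T κ Q := (hNULL0 T R Q hQk κ hκ).1
    have hI : 0 ≤ ∫ y in T, κ y * (Q y).det.re * (Matrix.trace (h y * (Q y)⁻¹)).re := by
      apply setIntegral_nonneg hE.isOpen.measurableSet
      intro y hy
      have hd : 0 < (Q y).det.re := by
        have := (hQk.posDef y hy).det_pos
        exact (Complex.pos_iff.1 this).1
      exact mul_nonneg (mul_nonneg (hκ.nonneg y) hd.le) (g2 y hy).1.le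
    have s3 : (Matrix.trace (h x * (Q x)⁻¹)).re * Pool.Agent.Helper95.HS.vol T κ Q ≤
        |C'| * C2 * Pool.Agent.Helper95.HS.vol T κ Q := by
      refine s1.trans ?_
      calc C' * ∫ y in T, κ y * (Q y).det.re * (Matrix.trace (h y * (Q y)⁻¹)).re
          ≤ |C'| * ∫ y in T, κ y * (Q y).det.re * (Matrix.trace (h y * (Q y)⁻¹)).re :=
            mul_le_mul_of_nonneg_right (le_abs_self _) hI
        _ ≤ |C'| * (C2 * Pool.Agent.Helper95.HS.vol T κ Q) :=
            mul_le_mul_of_nonneg_left s2 (abs_nonneg _)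
        _ = _ := by ring
    have s4 : (Matrix.trace (h x * (Q x)⁻¹)).re ≤ |C'| * C2 := le_of_mul_le_mul_right s3 hV
    rw [hB]
    linarith
  -- choice of δ
  set δ : ℝ := min 1 (1 / (2 * C * B)) with hδ
  have hCB : 0 < 2 * C * B := by positivity
  have hδpos : 0 < δ := lt_min one_pos (by positivity)
  have hδ1 : δ ≤ 1 := min_le_left _ _
  have hδ2 : δ * (C * B) ≤ 1 / 2 := by
    have h1 : δ ≤ 1 / (2 * C * B) := min_le_right _ _
    rw [le_div_iff₀ hCB] at h1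
    linarith
  obtain ⟨Q, hQ⟩ := hGB1 T R H h D k P hP δ hδpos
  refine ⟨δ, Q, hδpos, hQ, ?_⟩
  intro x hx
  have hQx := hQ.1.posDef x hx
  have h1 := le_tr_smul (D.her.posDef x hx).posSemidef hQx (key δ Q hδpos hδ1 hQ x hx)
  have h2 := (hcmp x hx).2
  -- `Q - δ H = (1/2) Q + (1/2 - δ C B) Q + δ C (B Q - h) + δ (C h - H)`
  have e : Q x - (δ : ℂ) • H x = ((1 / 2 : ℝ) : ℂ) • Q x + (((1 / 2 - δ * (C * B) : ℝ) : ℂ) • Q x +
      (((δ * C : ℝ) : ℂ) • ((B : ℂ) • Q x - h x) + ((δ : ℝ) : ℂ) • ((C : ℂ) • h x - H x))) := by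
    ext i j
    simp only [Matrix.sub_apply, Matrix.add_apply, Matrix.smul_apply, smul_eq_mul]
    push_cast
    ring
  rw [e]
  apply (smul_pd hQx (by norm_num)).add_posSemidef
  apply (smul_psd hQx.posSemidef (by linarith)).add
  exact (smul_psd h1 (by positivity)).add (smul_psd h2 hδpos.le)

end Pool.Agent.Helper88.GS
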